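import Mathlib

set_option autoImplicit false

/-! MP_2e6055, SM: the calculus behind the potential step. -/

namespace Pool.Agent.H20.SM

theorem sin_exp (x0 h s c : ℝ) (hs : Real.sin x0 = s) (hc : Real.cos x0 = c * s) (hh : |h| ≤ 1) :
    |Real.sin (x0 + h) - s * (1 + (c * h - h ^ 2 / 2))| ≤ |s| * (1 + |c|) * |h| ^ 3 := by
  have h1 := Real.sin_bound hh
  have h2 := Real.cos_bound hh
  have h0 := abs_nonneg h
  have h3 : |Real.cos h - (1 - h ^ 2 / 2)| ≤ |h| ^ 3 := by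
    refine h2.trans ?_
    have : |h| ^ 4 ≤ |h| ^ 3 := pow_le_pow_of_le_one h0 hh (by norm_num)
    have h5 : 0 ≤ |h| ^ 3 := by positivity
    nlinarith
  have h4 : |Real.sin h - h| ≤ |h| ^ 3 := by
    have e : Real.sin h - h = (Real.sin h - (h - h ^ 3 / 6)) + (- (h ^ 3 / 6)) := by ring
    rw [e]
    refine (abs_add_le _ _).trans ?_
    have : |h| ^ 4 ≤ |h| ^ 3 := pow_le_pow_of_le_one h0 hh (by norm_num)
    have h5 : 0 ≤ |h| ^ 3 := by positivity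
    have h6 : |-(h ^ 3 / 6)| = |h| ^ 3 / 6 := by
      rw [abs_neg, abs_div, abs_pow]
      norm_num
    rw [h6]
    nlinarith
  have e : Real.sin (x0 + h) - s * (1 + (c * h - h ^ 2 / 2)) =
      s * ((Real.cos h - (1 - h ^ 2 / 2)) + c * (Real.sin h - h)) := by
    rw [Real.sin_add, hs, hc]
    ring
  rw [e, abs_mul, mul_assoc]
  refine mul_le_mul_of_nonneg_left ?_ (abs_nonneg s)
  refine (abs_add_le _ _).trans ?_
  rw [abs_mul]
  nlinarith [abs_nonneg c, mul_le_mul_of_nonneg_left h4 (abs_nonneg c)]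

theorem cbrt_exp (y : ℝ) (hy : |y| ≤ 1 / 2) :
    |(1 + y) ^ ((1 / 3) : ℝ) - (1 + y / 3 - y ^ 2 / 9)| ≤ 4 * |y| ^ 3 := by
  have hy1 := (abs_le.1 hy)
  set u : ℝ := (1 + y) ^ ((1 / 3) : ℝ) with hu
  have hu0 : 0 ≤ u := Real.rpow_nonneg (by linarith) _
  have hu3 : u ^ 3 = 1 + y := by
    rw [hu, ← Real.rpow_natCast, ← Real.rpow_mul (by linarith)]
    norm_num
  set v : ℝ := 1 + y / 3 - y ^ 2 / 9 with hv
  have hv0 : 1 / 2 ≤ v := by
    rw [hv]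
    nlinarith
  have h1 : u ^ 3 - v ^ 3 = y ^ 3 * (2 / 9 - y / 27 - (1 / 3 - y / 9) ^ 3) := by
    rw [hu3, hv]
    ring
  have h2 : |u ^ 3 - v ^ 3| ≤ |y| ^ 3 := by
    rw [h1, abs_mul, abs_pow]
    have h3 : |2 / 9 - y / 27 - (1 / 3 - y / 9) ^ 3| ≤ 1 := by
      have e1 : 0 ≤ 1 / 3 - y / 9 := by linarith
      have e2 : 1 / 3 - y / 9 ≤ 1 / 2 := by linarith
      have e3 : (1 / 3 - y / 9) ^ 3 ≤ (1 / 2) ^ 3 := pow_le_pow_left₀ e1 e2 3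
      have e4 : 0 ≤ (1 / 3 - y / 9) ^ 3 := by positivity
      rw [abs_le]
      constructor <;> linarith
    have h4 : 0 ≤ |y| ^ 3 := by positivity
    nlinarith
  have h5 : u ^ 3 - v ^ 3 = (u - v) * (u ^ 2 + u * v + v ^ 2) := by ring
  rw [h5, abs_mul] at h2
  have h6 : 1 / 4 ≤ |u ^ 2 + u * v + v ^ 2| := by
    have : 1 / 4 ≤ u ^ 2 + u * v + v ^ 2 := by nlinarith [mul_nonneg hu0 (by linarith : 0 ≤ v)]
    exact this.trans (le_abs_self _)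
  nlinarith [abs_nonneg (u - v), mul_le_mul_of_nonneg_left h6 (abs_nonneg (u - v))]

theorem exp_exp (t : ℝ) (h0 : 0 ≤ t) (h1 : t ≤ 1) :
    0 ≤ Real.exp t - 1 - t ∧ Real.exp t - 1 - t ≤ t ^ 2 := by
  have e1 := Real.add_one_le_exp t
  have e2 := Real.abs_exp_sub_one_sub_id_le (show |t| ≤ 1 by rw [abs_of_nonneg h0]; exact h1)
  have e3 := (abs_le.1 e2).2
  constructor <;> linarith

/-- expansion of `y` and `y ^ 2` -/
theorem y_exp (M C1 r W S e c y : ℝ) (hM : 1 ≤ M) (hC : 0 ≤ C1) (hr : 0 < r)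
    (hr1 : (1 + M + C1) * r ≤ 1) (hW : |W| ≤ 2 * r) (hS0 : 0 ≤ S) (hS : S ≤ 2 * r ^ 2)
    (he : |e| ≤ C1 * r ^ 3) (hc : |c| ≤ M)
    (hy : |y - (c * (W / 2 + S * c / 2 + e) - (W / 2 + S * c / 2 + e) ^ 2 / 2)| ≤
      (1 + M) * |W / 2 + S * c / 2 + e| ^ 3) :
    |y - (c * W / 2 + c ^ 2 * S / 2 - W ^ 2 / 8)| ≤ 4 * (1 + M + C1) ^ 4 * r ^ 3 ∧
    |y| ≤ 7 * (1 + M + C1) ^ 4 * r ∧
    |y ^ 2 - c ^ 2 * W ^ 2 / 4| ≤ 60 * (1 + M + C1) ^ 8 * r ^ 3 := by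
  set H : ℝ := 1 + M + C1 with hH
  have hH1 : 1 ≤ H := by linarith
  have hH0 : 0 < H := by linarith
  have hrH : r ≤ 1 := by nlinarith
  have hc0 := abs_nonneg c
  have hcH : |c| ≤ H := by linarith
  set g : ℝ := S * c / 2 + e with hg
  set h : ℝ := W / 2 + S * c / 2 + e with hh
  have hr2 : r ^ 2 ≤ r := by nlinarith
  have hr3 : r ^ 3 ≤ r ^ 2 := by nlinarith [sq_nonneg r]
  have hgb : |g| ≤ (M + C1) * r ^ 2 := by
    have e1 : |S * c / 2| ≤ M * r ^ 2 := by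
      rw [abs_div, abs_mul, abs_of_nonneg hS0]
      have : S * |c| ≤ 2 * r ^ 2 * M := mul_le_mul hS hc hc0 (by positivity)
      rw [abs_of_pos (by norm_num : (0:ℝ) < 2)]
      linarith
    have e2 : |e| ≤ C1 * r ^ 2 := he.trans (mul_le_mul_of_nonneg_left hr3 hC)
    calc |g| ≤ |S * c / 2| + |e| := abs_add_le _ _
      _ ≤ _ := by linarith
  have hgb1 : |g| ≤ H * r ^ 2 := by
    refine hgb.trans ?_
    have : 0 ≤ r ^ 2 := sq_nonneg r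
    nlinarith
  have hhb : |h| ≤ H * r := by
    have e1 : h = W / 2 + g := by rw [hh, hg]; ring
    rw [e1]
    refine (abs_add_le _ _).trans ?_
    rw [abs_div, abs_of_pos (by norm_num : (0:ℝ) < 2)]
    have : (M + C1) * r ^ 2 ≤ (M + C1) * r := mul_le_mul_of_nonneg_left hr2 (by linarith)
    have e3 : H * r = r + (M + C1) * r := by rw [hH]; ring
    rw [e3]
    linarith
  -- first claim
  have h1 : (1 + M) * |h| ^ 3 ≤ H ^ 4 * r ^ 3 := by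
    have e1 : |h| ^ 3 ≤ (H * r) ^ 3 := pow_le_pow_left₀ (abs_nonneg h) hhb 3
    calc (1 + M) * |h| ^ 3 ≤ H * (H * r) ^ 3 :=
          mul_le_mul (by linarith) e1 (by positivity) hH0.le
      _ = H ^ 4 * r ^ 3 := by ring
  have hr3p : 0 < r ^ 3 := by positivity
  have h2 : |c * e| ≤ H ^ 2 * r ^ 3 := by
    rw [abs_mul]
    calc |c| * |e| ≤ H * (C1 * r ^ 3) := mul_le_mul hcH he (abs_nonneg e) hH0.le
      _ ≤ H * (H * r ^ 3) := by
          apply mul_le_mul_of_nonneg_left _ hH0.le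
          exact mul_le_mul_of_nonneg_right (by linarith) hr3p.le
      _ = H ^ 2 * r ^ 3 := by ring
  have h3 : |(W * g + g ^ 2) / 2| ≤ 2 * H ^ 2 * r ^ 3 := by
    rw [abs_div, abs_of_pos (by norm_num : (0:ℝ) < 2)]
    have e1 : |W * g| ≤ 2 * H * r ^ 3 := by
      rw [abs_mul]
      calc |W| * |g| ≤ 2 * r * (H * r ^ 2) := mul_le_mul hW hgb1 (abs_nonneg g) (by positivity)
        _ = 2 * H * r ^ 3 := by ring
    have e2 : |g ^ 2| ≤ H ^ 2 * r ^ 3 := by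
      rw [abs_pow]
      calc |g| ^ 2 ≤ (H * r ^ 2) ^ 2 := pow_le_pow_left₀ (abs_nonneg g) hgb1 2
        _ = H ^ 2 * (r ^ 3 * r) := by ring
        _ ≤ H ^ 2 * (r ^ 3 * 1) := by
            apply mul_le_mul_of_nonneg_left _ (by positivity)
            exact mul_le_mul_of_nonneg_left hrH hr3p.le
        _ = H ^ 2 * r ^ 3 := by ring
    have e3 : H ≤ H ^ 2 := by nlinarith
    have e4 : 2 * H * r ^ 3 ≤ 2 * H ^ 2 * r ^ 3 :=
      mul_le_mul_of_nonneg_right (by linarith) hr3p.le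
    have e5 := abs_add_le (W * g) (g ^ 2)
    have e6 : 0 ≤ H ^ 2 * r ^ 3 := by positivity
    linarith
  have hH24 : H ^ 2 ≤ H ^ 4 := pow_le_pow_right₀ hH1 (by norm_num)
  have hY : |y - (c * W / 2 + c ^ 2 * S / 2 - W ^ 2 / 8)| ≤ 4 * H ^ 4 * r ^ 3 := by
    have e1 : y - (c * W / 2 + c ^ 2 * S / 2 - W ^ 2 / 8) =
        (y - (c * h - h ^ 2 / 2)) + c * e - (W * g + g ^ 2) / 2 := by
      rw [hh, hg]
      ring
    rw [e1]
    have e2 := abs_sub (y - (c * h - h ^ 2 / 2) + c * e) ((W * g + g ^ 2) / 2)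
    have e3 := abs_add_le (y - (c * h - h ^ 2 / 2)) (c * e)
    have e4 : H ^ 2 * r ^ 3 ≤ H ^ 4 * r ^ 3 := mul_le_mul_of_nonneg_right hH24 hr3p.le
    linarith
  have hWsq : W ^ 2 ≤ 4 * r ^ 2 := by
    rw [← sq_abs]
    nlinarith [abs_nonneg W]
  have hcsq : c ^ 2 ≤ H ^ 2 := by
    rw [← sq_abs]
    exact pow_le_pow_left₀ hc0 hcH 2
  have hY2 : |c ^ 2 * S / 2 - W ^ 2 / 8| ≤ 2 * H ^ 2 * r ^ 2 := by
    have e1 : 0 ≤ c ^ 2 * S / 2 := by positivity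
    have e2 : c ^ 2 * S / 2 ≤ H ^ 2 * r ^ 2 := by
      have : c ^ 2 * S ≤ H ^ 2 * (2 * r ^ 2) := mul_le_mul hcsq hS hS0 (by positivity)
      linarith
    have e3 : 0 ≤ W ^ 2 / 8 := by positivity
    have e4 : r ^ 2 ≤ H ^ 2 * r ^ 2 := by
      have : 1 ≤ H ^ 2 := by nlinarith
      nlinarith [sq_nonneg r]
    have e5 : 0 ≤ H ^ 2 * r ^ 2 := by positivity
    have e6 : 0 ≤ r ^ 2 := by positivity
    rw [abs_le]
    constructor <;> linarith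
  have hcW : |c * W / 2| ≤ H * r := by
    rw [abs_div, abs_mul, abs_of_pos (by norm_num : (0:ℝ) < 2)]
    have : |c| * |W| ≤ H * (2 * r) := mul_le_mul hcH hW (abs_nonneg W) hH0.le
    linarith
  have hr32 : r ^ 3 ≤ r := by linarith
  have hH2 : H ≤ H ^ 4 := le_self_pow₀ hH1 (by norm_num)
  have hH4p : 0 < H ^ 4 := by positivity
  have hd : |y - c * W / 2| ≤ 6 * H ^ 4 * r ^ 2 := by
    have e1 : y - c * W / 2 = (y - (c * W / 2 + c ^ 2 * S / 2 - W ^ 2 / 8)) +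
        (c ^ 2 * S / 2 - W ^ 2 / 8) := by ring
    rw [e1]
    refine (abs_add_le _ _).trans ?_
    have e2 : 4 * H ^ 4 * r ^ 3 ≤ 4 * H ^ 4 * r ^ 2 :=
      mul_le_mul_of_nonneg_left hr3 (by positivity)
    have e3 : 2 * H ^ 2 * r ^ 2 ≤ 2 * H ^ 4 * r ^ 2 :=
      mul_le_mul_of_nonneg_right (by linarith) (by positivity)
    linarith
  have hyb : |y| ≤ 7 * H ^ 4 * r := by
    have e1 : y = (y - c * W / 2) + c * W / 2 := by ring
    rw [e1]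
    refine (abs_add_le _ _).trans ?_
    have e2 : 6 * H ^ 4 * r ^ 2 ≤ 6 * H ^ 4 * r := mul_le_mul_of_nonneg_left hr2 (by positivity)
    have e3 : H * r ≤ H ^ 4 * r := mul_le_mul_of_nonneg_right hH2 hr.le
    linarith
  refine ⟨hY, hyb, ?_⟩
  have e1 : y ^ 2 - c ^ 2 * W ^ 2 / 4 = (y - c * W / 2) * (y + c * W / 2) := by ring
  rw [e1, abs_mul]
  have e2 : |y + c * W / 2| ≤ 8 * H ^ 4 * r := by
    refine (abs_add_le _ _).trans ?_
    have e3 : H * r ≤ H ^ 4 * r := mul_le_mul_of_nonneg_right hH2 hr.le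
    linarith
  calc |y - c * W / 2| * |y + c * W / 2| ≤ 6 * H ^ 4 * r ^ 2 * (8 * H ^ 4 * r) :=
        mul_le_mul hd e2 (abs_nonneg _) (by positivity)
    _ = 48 * H ^ 8 * r ^ 3 := by ring
    _ ≤ 60 * H ^ 8 * r ^ 3 := by
        have : 0 ≤ H ^ 8 * r ^ 3 := by positivity
        linarith

/-- expansion of the two functions of `y` -/
theorem f_exp (B r S Y Q y a : ℝ) (hB : 1 ≤ B) (hr : 0 < r) (hr1 : 2 * B * r ≤ 1)
    (hS0 : 0 ≤ S) (hS : S ≤ 2 * r ^ 2) (ha0 : 0 ≤ a) (ha1 : a ≤ 1 / 4)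
    (hy : |y| ≤ B * r) (hyY : |y - Y| ≤ B * r ^ 3) (hyQ : |y ^ 2 - Q| ≤ B * r ^ 3) :
    |Real.exp (a * S) * (1 + y) ^ ((1 / 3) : ℝ) - (1 + a * S + Y / 3 - Q / 9)| ≤
      40 * B ^ 3 * r ^ 3 := by
  have hy2 : |y| ≤ 1 / 2 := by linarith
  have hc := cbrt_exp y hy2
  set u : ℝ := (1 + y) ^ ((1 / 3) : ℝ) with hu
  have hyl := abs_le.1 hy2
  have hu0 : 0 ≤ u := Real.rpow_nonneg (by linarith) _
  have hu2 : u ≤ 2 := by
    calc u ≤ (2:ℝ) ^ ((1 / 3) : ℝ) := Real.rpow_le_rpow (by linarith) (by linarith) (by norm_num)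
      _ ≤ (2:ℝ) ^ (1 : ℝ) := Real.rpow_le_rpow_of_exponent_le (by norm_num) (by norm_num)
      _ = 2 := Real.rpow_one 2
  have hr1' : r ≤ 1 := by nlinarith
  have hr3p : 0 < r ^ 3 := by positivity
  have hr2 : r ^ 2 ≤ 1 := by nlinarith
  have haS0 : 0 ≤ a * S := by positivity
  have haS : a * S ≤ r ^ 2 := by nlinarith
  have haS1 : a * S ≤ 1 := by linarith
  obtain ⟨hx0, hx1⟩ := exp_exp (a * S) haS0 haS1
  have hB3 : B ≤ B ^ 3 := le_self_pow₀ hB (by norm_num)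
  have hy3 : |y| ^ 3 ≤ B ^ 3 * r ^ 3 := by
    calc |y| ^ 3 ≤ (B * r) ^ 3 := pow_le_pow_left₀ (abs_nonneg y) hy 3
      _ = B ^ 3 * r ^ 3 := by ring
  have e1 : Real.exp (a * S) * u - (1 + a * S + Y / 3 - Q / 9) =
      (Real.exp (a * S) - 1 - a * S) * u + (1 + a * S) * (u - (1 + y / 3 - y ^ 2 / 9)) +
        a * S * (y / 3 - y ^ 2 / 9) + (y - Y) / 3 - (y ^ 2 - Q) / 9 := by
    ring
  rw [e1]
  have t1 : |(Real.exp (a * S) - 1 - a * S) * u| ≤ 2 * B ^ 3 * r ^ 3 := by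
    rw [abs_mul, abs_of_nonneg hx0, abs_of_nonneg hu0]
    have h1 : (a * S) ^ 2 ≤ r ^ 3 := by
      calc (a * S) ^ 2 ≤ (r ^ 2) ^ 2 := pow_le_pow_left₀ haS0 haS 2
        _ = r ^ 3 * r := by ring
        _ ≤ r ^ 3 * 1 := mul_le_mul_of_nonneg_left hr1' hr3p.le
        _ = r ^ 3 := by ring
    calc (Real.exp (a * S) - 1 - a * S) * u ≤ r ^ 3 * 2 :=
          mul_le_mul (hx1.trans h1) hu2 hu0 hr3p.le
      _ ≤ 2 * B ^ 3 * r ^ 3 := by
          have : 1 ≤ B ^ 3 := one_le_pow₀ hB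
          nlinarith
  have t2 : |(1 + a * S) * (u - (1 + y / 3 - y ^ 2 / 9))| ≤ 8 * B ^ 3 * r ^ 3 := by
    rw [abs_mul, abs_of_nonneg (by linarith : 0 ≤ 1 + a * S)]
    calc (1 + a * S) * |u - (1 + y / 3 - y ^ 2 / 9)| ≤ 2 * (4 * |y| ^ 3) :=
          mul_le_mul (by linarith) hc (abs_nonneg _) (by norm_num)
      _ ≤ 8 * B ^ 3 * r ^ 3 := by linarith
  have t3 : |a * S * (y / 3 - y ^ 2 / 9)| ≤ B ^ 3 * r ^ 3 := by
    rw [abs_mul, abs_of_nonneg haS0]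
    have h1 : |y / 3 - y ^ 2 / 9| ≤ |y| := by
      have h2 : y / 3 - y ^ 2 / 9 = y * (1 / 3 - y / 9) := by ring
      rw [h2, abs_mul]
      have h3 : |1 / 3 - y / 9| ≤ 1 := by
        rw [abs_le]
        constructor <;> linarith
      nlinarith [abs_nonneg y]
    calc a * S * |y / 3 - y ^ 2 / 9| ≤ r ^ 2 * (B * r) :=
          mul_le_mul haS (h1.trans hy) (abs_nonneg _) (by positivity)
      _ = B * r ^ 3 := by ring
      _ ≤ B ^ 3 * r ^ 3 := mul_le_mul_of_nonneg_right hB3 hr3p.le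
  have t4 : |(y - Y) / 3| ≤ B ^ 3 * r ^ 3 := by
    rw [abs_div, abs_of_pos (by norm_num : (0:ℝ) < 3)]
    have : B * r ^ 3 ≤ B ^ 3 * r ^ 3 := mul_le_mul_of_nonneg_right hB3 hr3p.le
    linarith [abs_nonneg (y - Y)]
  have t5 : |(y ^ 2 - Q) / 9| ≤ B ^ 3 * r ^ 3 := by
    rw [abs_div, abs_of_pos (by norm_num : (0:ℝ) < 9)]
    have : B * r ^ 3 ≤ B ^ 3 * r ^ 3 := mul_le_mul_of_nonneg_right hB3 hr3p.le
    linarith [abs_nonneg (y ^ 2 - Q)]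
  have s1 := abs_sub ((Real.exp (a * S) - 1 - a * S) * u +
    (1 + a * S) * (u - (1 + y / 3 - y ^ 2 / 9)) + a * S * (y / 3 - y ^ 2 / 9) + (y - Y) / 3)
    ((y ^ 2 - Q) / 9)
  have s2 := abs_add_le ((Real.exp (a * S) - 1 - a * S) * u +
    (1 + a * S) * (u - (1 + y / 3 - y ^ 2 / 9)) + a * S * (y / 3 - y ^ 2 / 9)) ((y - Y) / 3)
  have s3 := abs_add_le ((Real.exp (a * S) - 1 - a * S) * u +
    (1 + a * S) * (u - (1 + y / 3 - y ^ 2 / 9))) (a * S * (y / 3 - y ^ 2 / 9))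
  have s4 := abs_add_le ((Real.exp (a * S) - 1 - a * S) * u)
    ((1 + a * S) * (u - (1 + y / 3 - y ^ 2 / 9)))
  have hp : 0 ≤ B ^ 3 * r ^ 3 := by positivity
  linarith

theorem h_bound (M C1 r W S e c : ℝ) (hM : 1 ≤ M) (hC : 0 ≤ C1) (hr : 0 < r)
    (hr1 : (1 + M + C1) * r ≤ 1) (hW : |W| ≤ 2 * r) (hS0 : 0 ≤ S) (hS : S ≤ 2 * r ^ 2)
    (he : |e| ≤ C1 * r ^ 3) (hc : |c| ≤ M) : |W / 2 + S * c / 2 + e| ≤ 1 := by
  have hrH : r ≤ 1 := by nlinarith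
  have hr2 : r ^ 2 ≤ r := by nlinarith
  have hr3 : r ^ 3 ≤ r := by nlinarith [sq_nonneg r]
  have e1 : |S * c / 2| ≤ M * r ^ 2 := by
    rw [abs_div, abs_mul, abs_of_nonneg hS0]
    have : S * |c| ≤ 2 * r ^ 2 * M := mul_le_mul hS hc (abs_nonneg c) (by positivity)
    rw [abs_of_pos (by norm_num : (0:ℝ) < 2)]
    linarith
  have e2 : |W / 2| ≤ r := by
    rw [abs_div, abs_of_pos (by norm_num : (0:ℝ) < 2)]
    linarith
  have e3 : M * r ^ 2 ≤ M * r := mul_le_mul_of_nonneg_left hr2 (by linarith)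
  have e4 : C1 * r ^ 3 ≤ C1 * r := mul_le_mul_of_nonneg_left hr3 hC
  have e5 := abs_add_le (W / 2 + S * c / 2) e
  have e6 := abs_add_le (W / 2) (S * c / 2)
  nlinarith

theorem cot_facts (x0 s κ : ℝ) (hκ : 0 < κ) (hs : Real.sin x0 = s) (h : κ ≤ s) :
    |Real.cot x0| ≤ 1 / κ ∧ Real.cot x0 ^ 2 * s ^ 2 = 1 - s ^ 2 := by
  have hs0 : 0 < s := by linarith
  have h3 : Real.cos x0 = Real.cot x0 * s := by
    rw [Real.cot_eq_cos_div_sin, hs]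
    field_simp
  constructor
  · have h1 : |Real.cot x0| * s ≤ 1 := by
      have h2 := Real.abs_cos_le_one x0
      rw [h3, abs_mul, abs_of_pos hs0] at h2
      exact h2
    rw [le_div_iff₀ hκ]
    nlinarith [abs_nonneg (Real.cot x0)]
  · have h4 := Real.sin_sq_add_cos_sq x0
    rw [h3, hs] at h4
    linarith [mul_pow (Real.cot x0) s 2]

theorem u_facts (s : ℝ) (h0 : 0 < s) (h1 : s ≤ 1) :
    0 < s ^ ((1 / 3) : ℝ) ∧ s ^ ((1 / 3) : ℝ) ≤ 1 ∧ s ^ 2 ≤ s ^ ((1 / 3) : ℝ) := by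
  refine ⟨Real.rpow_pos_of_pos h0 _, Real.rpow_le_one h0.le h1 (by norm_num), ?_⟩
  rw [← Real.rpow_natCast]
  exact Real.rpow_le_rpow_of_exponent_ge h0 h1 (by norm_num)

theorem c_facts (M C1 : ℝ) (hM : 1 ≤ M) (hC : 0 < C1) : C1 ≤ (4 * M + 1 + M ^ 2) * C1 := by
  nlinarith [sq_nonneg M]

/-- everything at one state -/
theorem state_exp (C1 κ r W S x x0 s M H : ℝ) (hκ : 0 < κ) (hM1 : 1 ≤ M) (hMκ : 1 / κ ≤ M)
    (hC : 0 < C1) (hHd : H = 1 + M + C1)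
    (hr : 0 < r) (hr1 : 120 * H ^ 8 * r ≤ 1) (hs : Real.sin x0 = s) (hsκ : κ ≤ s)
    (hW : |W| ≤ 2 * r) (hS0 : 0 ≤ S) (hS : S ≤ 2 * r ^ 2)
    (hx : |x - (x0 + W / 2 + S * Real.cot x0 / 2)| ≤ C1 * r ^ 3) :
    ∃ y, Real.sin x = s * (1 + y) ∧ |y| ≤ 7 * H ^ 4 * r ∧
      |y - (Real.cot x0 * W / 2 + Real.cot x0 ^ 2 * S / 2 - W ^ 2 / 8)| ≤
        4 * H ^ 4 * r ^ 3 ∧
      |y ^ 2 - Real.cot x0 ^ 2 * W ^ 2 / 4| ≤ 60 * H ^ 8 * r ^ 3 ∧
      ∀ a : ℝ, 0 ≤ a → a ≤ 1 / 4 → |Real.exp (a * S) * (1 + y) ^ ((1 / 3) : ℝ) - (1 + a * S +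
        (Real.cot x0 * W / 2 + Real.cot x0 ^ 2 * S / 2 - W ^ 2 / 8) / 3 -
        (Real.cot x0 ^ 2 * W ^ 2 / 4) / 9)| ≤ 40 * (60 * H ^ 8) ^ 3 * r ^ 3 := by
  have hH1 : 1 ≤ H := by linarith
  have hs0 : 0 < s := by linarith
  set c : ℝ := Real.cot x0 with hc
  have hcs : Real.cos x0 = c * s := by
    rw [hc, Real.cot_eq_cos_div_sin, hs]
    field_simp
  have hcM : |c| ≤ M := by
    have h1 : |c| * s ≤ 1 := by
      have h2 := Real.abs_cos_le_one x0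
      rw [hcs, abs_mul, abs_of_pos hs0] at h2
      exact h2
    have h3 : |c| ≤ 1 / κ := by
      rw [le_div_iff₀ hκ]
      nlinarith [abs_nonneg c]
    exact h3.trans hMκ
  have hHp : 1 ≤ H ^ 8 := one_le_pow₀ hH1
  have hH8 : H ≤ H ^ 8 := le_self_pow₀ hH1 (by norm_num)
  have hr1' : H * r ≤ 1 := by nlinarith
  set e : ℝ := x - (x0 + W / 2 + S * c / 2) with he
  have hxe : x = x0 + (W / 2 + S * c / 2 + e) := by rw [he]; ring
  have hr1'' : (1 + M + C1) * r ≤ 1 := by rw [← hHd]; exact hr1'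
  have hh := h_bound M C1 r W S e c hM1 hC.le hr hr1'' hW hS0 hS hx hcM
  have hse := sin_exp x0 (W / 2 + S * c / 2 + e) s c hs hcs hh
  rw [← hxe] at hse
  set y : ℝ := Real.sin x / s - 1 with hy
  have hsy : Real.sin x = s * (1 + y) := by
    rw [hy]
    field_simp
    ring
  have hyb : |y - (c * (W / 2 + S * c / 2 + e) - (W / 2 + S * c / 2 + e) ^ 2 / 2)| ≤
      (1 + M) * |W / 2 + S * c / 2 + e| ^ 3 := by
    have h1 : Real.sin x - s * (1 + (c * (W / 2 + S * c / 2 + e) -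
        (W / 2 + S * c / 2 + e) ^ 2 / 2)) =
        s * (y - (c * (W / 2 + S * c / 2 + e) - (W / 2 + S * c / 2 + e) ^ 2 / 2)) := by
      rw [hsy]
      ring
    rw [h1, abs_mul, abs_of_pos hs0, mul_assoc] at hse
    have h2 := le_of_mul_le_mul_left hse hs0
    refine h2.trans (mul_le_mul_of_nonneg_right (by linarith) (by positivity))
  obtain ⟨y1, y2, y3⟩ := y_exp M C1 r W S e c y hM1 hC.le hr hr1'' hW hS0 hS hx hcM hyb
  rw [← hHd] at y1 y2 y3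
  refine ⟨y, hsy, y2, y1, y3, fun a ha0 ha1 => ?_⟩
  have hH48 : H ^ 4 ≤ H ^ 8 := pow_le_pow_right₀ hH1 (by norm_num)
  have hr3 : 0 < r ^ 3 := by positivity
  refine f_exp (60 * H ^ 8) r S _ _ y a (by linarith) hr (by linarith) hS0 hS ha0 ha1 ?_ ?_ ?_
  · refine y2.trans (mul_le_mul_of_nonneg_right ?_ hr.le)
    linarith
  · refine y1.trans (mul_le_mul_of_nonneg_right ?_ hr3.le)
    linarith
  · exact y3

end Pool.Agent.H20.SM
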