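import Pool.Agent.H93.SM.Iface2
import Pool.Agent.H20.SM.PsCalc

set_option autoImplicit false
open Pool.Agent.H75.Perc Metric Set Filter Topology Pool.Agent.H7.UC Pool.Agent.H74.Tri

/-! MP_2e6055, SM: the potential step PS from the micro-step MS. -/

namespace Pool.Agent.H93.SM

theorem Ev_lin2 {z : Fc} {stop : Finset Fc → (Fc → Bool) → List Bool → Prop}
    (G G' : Finset Fc → (Fc → Bool) → List Bool → ℝ) (a b c : ℝ) (U0 : Finset Fc)
    (col0 : Fc → Bool) (hi0 : List Bool) :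
    Ev z stop (fun U col hi => a * G U col hi + b * G' U col hi + c) U0 col0 hi0 =
      a * Ev z stop G U0 col0 hi0 + b * Ev z stop G' U0 col0 hi0 + c :=
  Ev_lin a b c U0 col0 hi0

theorem Ev_lin3 {z : Fc} {stop : Finset Fc → (Fc → Bool) → List Bool → Prop}
    (G G' G'' : Finset Fc → (Fc → Bool) → List Bool → ℝ) (a b d c : ℝ) (U0 : Finset Fc)
    (col0 : Fc → Bool) (hi0 : List Bool) :
    Ev z stop (fun U col hi => a * G U col hi + b * G' U col hi + d * G'' U col hi + c) U0 col0 hi0 =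
      a * Ev z stop G U0 col0 hi0 + b * Ev z stop G' U0 col0 hi0 + d * Ev z stop G'' U0 col0 hi0 +
        c := by
  have h1 := Ev_lin2 (z := z) (stop := stop)
    (fun U col hi => a * G U col hi + b * G' U col hi + 0) G'' 1 d c U0 col0 hi0
  rw [Ev_lin2 (z := z) (stop := stop) G G' a b 0 U0 col0 hi0] at h1
  have h2 : (fun (U : Finset Fc) (col : Fc → Bool) (hi : List Bool) =>
      a * G U col hi + b * G' U col hi + d * G'' U col hi + c) =
      fun U col hi => 1 * (a * G U col hi + b * G' U col hi + 0) + d * G'' U col hi + c := by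
    funext U col hi
    ring
  rw [h2, h1]
  ring

/-- the abstract step: pointwise expansions at the leaves give the three conclusions -/
theorem ps_num (u0 s c C1 M A r P ES EW E2 EG EF F0 : ℝ) (hu0 : 0 < u0) (hu1 : u0 ≤ 1)
    (hsu : s ^ 2 ≤ u0) (hc : |c| ≤ M) (hM : 1 ≤ M) (hC1 : 0 < C1)
    (hA : 0 < A) (hr : 0 < r) (hcs : c ^ 2 * s ^ 2 = 1 - s ^ 2) (hP : 0 < P)
    (hEW : |EW| ≤ C1 * r ^ 3) (hE2 : |E2| ≤ C1 * r ^ 3) (hES : r ^ 2 / 8 ≤ ES)
    (hEG1 : EG ≤ P * u0 * (1 + c / 6 * EW - (1 / 24 + c ^ 2 / 36) * E2 + A * r ^ 3))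
    (hEG2 : P * u0 * (1 + c / 6 * EW - (1 / 24 + c ^ 2 / 36) * E2 - A * r ^ 3) ≤ EG)
    (hEF : EF ≤ F0 + (16 * u0 * c / 6 - s ^ 2 * c) * EW +
      (-(16 * u0 * (1 / 24 + c ^ 2 / 36)) + s ^ 2 * (1 - c ^ 2) / 4) * E2 +
      (-(4 * u0) + 4 * s ^ 2 - 5 / 2) * ES + A * r ^ 3)
    (hrs : 16 * (A + (4 * M + 1 + M ^ 2) * C1) * r ≤ 1) :
    |EG - P * u0| ≤ (A + (4 * M + 1 + M ^ 2) * C1) * r ^ 3 * P ∧ EF ≤ F0 - 2 * ES := by
  have hc2 : c ^ 2 ≤ M ^ 2 := by
    rw [← sq_abs]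
    exact pow_le_pow_left₀ (abs_nonneg c) hc 2
  have hr3 : 0 < r ^ 3 := by positivity
  have hCr : 0 < C1 * r ^ 3 := by positivity
  have a1 : |c / 6 * EW| ≤ M * (C1 * r ^ 3) := by
    rw [abs_mul, abs_div, abs_of_pos (by norm_num : (0:ℝ) < 6)]
    exact mul_le_mul (by linarith) hEW (abs_nonneg _) (by linarith)
  have a2 : |(1 / 24 + c ^ 2 / 36) * E2| ≤ (1 + M ^ 2) * (C1 * r ^ 3) := by
    rw [abs_mul, abs_of_nonneg (by positivity : 0 ≤ 1 / 24 + c ^ 2 / 36)]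
    exact mul_le_mul (by linarith [sq_nonneg M]) hE2 (abs_nonneg _) (by positivity)
  have a1' := abs_le.1 a1
  have a2' := abs_le.1 a2
  have hPu : P * u0 ≤ P := by nlinarith
  have hPu0 : 0 < P * u0 := by positivity
  constructor
  · set Z : ℝ := M * (C1 * r ^ 3) + (1 + M ^ 2) * (C1 * r ^ 3) + A * r ^ 3 with hZ
    have hZ0 : 0 ≤ Z := by positivity
    have hZ1 : Z ≤ (A + (4 * M + 1 + M ^ 2) * C1) * r ^ 3 := by
      rw [hZ]
      nlinarith
    have h1 : EG - P * u0 ≤ P * u0 * Z := by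
      have : EG ≤ P * u0 * (1 + Z) := hEG1.trans (mul_le_mul_of_nonneg_left (by linarith) hPu0.le)
      linarith
    have h2 : -(P * u0 * Z) ≤ EG - P * u0 := by
      have : P * u0 * (1 - Z) ≤ EG :=
        (mul_le_mul_of_nonneg_left (by linarith) hPu0.le).trans hEG2
      linarith
    have h3 : P * u0 * Z ≤ (A + (4 * M + 1 + M ^ 2) * C1) * r ^ 3 * P := by
      calc P * u0 * Z ≤ P * Z := mul_le_mul_of_nonneg_right hPu hZ0
        _ ≤ P * ((A + (4 * M + 1 + M ^ 2) * C1) * r ^ 3) := mul_le_mul_of_nonneg_left hZ1 hP.le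
        _ = _ := by ring
    rw [abs_le]
    constructor <;> linarith
  · have hs2 : s ^ 2 ≤ 1 := by linarith
    have b1 : (16 * u0 * c / 6 - s ^ 2 * c) * EW ≤ 4 * M * (C1 * r ^ 3) := by
      have e1 : |16 * u0 * c / 6 - s ^ 2 * c| ≤ 4 * M := by
        have e2 : 16 * u0 * c / 6 - s ^ 2 * c = (16 / 6 * u0 - s ^ 2) * c := by ring
        rw [e2, abs_mul]
        have e3 : |16 / 6 * u0 - s ^ 2| ≤ 4 := by
          rw [abs_le]
          constructor <;> nlinarith [sq_nonneg s]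
        exact mul_le_mul e3 hc (abs_nonneg _) (by norm_num)
      calc _ ≤ |(16 * u0 * c / 6 - s ^ 2 * c) * EW| := le_abs_self _
        _ = |16 * u0 * c / 6 - s ^ 2 * c| * |EW| := abs_mul _ _
        _ ≤ 4 * M * (C1 * r ^ 3) := mul_le_mul e1 hEW (abs_nonneg _) (by linarith)
    have b2 : (-(16 * u0 * (1 / 24 + c ^ 2 / 36)) + s ^ 2 * (1 - c ^ 2) / 4) * E2 ≤
        (1 + M ^ 2) * (C1 * r ^ 3) := by
      have e1 : |-(16 * u0 * (1 / 24 + c ^ 2 / 36)) + s ^ 2 * (1 - c ^ 2) / 4| ≤ 1 + M ^ 2 := by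
        have e2 : s ^ 2 * (1 - c ^ 2) / 4 = s ^ 2 / 4 - (1 - s ^ 2) / 4 := by
          rw [← hcs]
          ring
        rw [e2]
        have e3 : 0 ≤ 16 * u0 * (1 / 24 + c ^ 2 / 36) := by positivity
        have e4 : 16 * u0 * (1 / 24 + c ^ 2 / 36) ≤ 16 * 1 * (1 / 24 + M ^ 2 / 36) :=
          mul_le_mul (by linarith) (by linarith) (by positivity) (by norm_num)
        have e5 : 1 ≤ M ^ 2 := by nlinarith
        rw [abs_le]
        constructor <;> nlinarith [sq_nonneg s]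
      calc _ ≤ |(-(16 * u0 * (1 / 24 + c ^ 2 / 36)) + s ^ 2 * (1 - c ^ 2) / 4) * E2| := le_abs_self _
        _ = |-(16 * u0 * (1 / 24 + c ^ 2 / 36)) + s ^ 2 * (1 - c ^ 2) / 4| * |E2| := abs_mul _ _
        _ ≤ (1 + M ^ 2) * (C1 * r ^ 3) := mul_le_mul e1 hE2 (abs_nonneg _) (by positivity)
    have hES0 : 0 ≤ ES := le_trans (by positivity) hES
    have b3 : (-(4 * u0) + 4 * s ^ 2 - 5 / 2) * ES ≤ -(5 / 2) * ES :=
      mul_le_mul_of_nonneg_right (by linarith) hES0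
    have b4 : (A + (4 * M + 1 + M ^ 2) * C1) * r ^ 3 ≤ ES / 2 := by
      have e1 : (A + (4 * M + 1 + M ^ 2) * C1) * r ^ 3 =
          (16 * (A + (4 * M + 1 + M ^ 2) * C1) * r) * (r ^ 2 / 16) := by ring
      rw [e1]
      have : (16 * (A + (4 * M + 1 + M ^ 2) * C1) * r) * (r ^ 2 / 16) ≤ 1 * (r ^ 2 / 16) :=
        mul_le_mul_of_nonneg_right hrs (by positivity)
      linarith
    have b5 : (A + (4 * M + 1 + M ^ 2) * C1) * r ^ 3 =
        A * r ^ 3 + 4 * M * (C1 * r ^ 3) + (1 + M ^ 2) * (C1 * r ^ 3) := by ring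
    linarith

theorem ps (h : MS) : PS := by
  intro κ hκ
  obtain ⟨C1, r1, hC1, hr1, H1⟩ := h κ hκ
  obtain ⟨M, hM1, hMκ⟩ : ∃ M : ℝ, 1 ≤ M ∧ 1 / κ ≤ M := ⟨max 1 (1 / κ), le_max_left _ _, le_max_right _ _⟩
  obtain ⟨H, hH⟩ : ∃ H : ℝ, H = 1 + M + C1 := ⟨_, rfl⟩
  have hH1 : 1 ≤ H := by linarith
  obtain ⟨A1, hA1⟩ : ∃ A1 : ℝ, A1 = 40 * (60 * H ^ 8) ^ 3 := ⟨_, rfl⟩
  have hH8 : 1 ≤ H ^ 8 := one_le_pow₀ hH1
  have hA1p : 0 < A1 := by rw [hA1]; positivity
  obtain ⟨A, hA⟩ : ∃ A : ℝ, A = 16 * A1 + 68 * H ^ 8 := ⟨_, rfl⟩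
  have hAp : 0 < A := by rw [hA]; positivity
  obtain ⟨C, hC⟩ : ∃ C : ℝ, C = A + (4 * M + 1 + M ^ 2) * C1 + 120 * H ^ 8 := ⟨_, rfl⟩
  have hCp : 0 < C := by rw [hC]; positivity
  refine ⟨C, min r1 (1 / (16 * C)), hCp, lt_min hr1 (by positivity), fun r hr hrr => ?_⟩
  have hrr1 : r ≤ r1 := hrr.trans (min_le_left _ _)
  have hrC : 16 * C * r ≤ 1 := by
    have h1 : r ≤ 1 / (16 * C) := hrr.trans (min_le_right _ _)
    rw [le_div_iff₀ (by positivity)] at h1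
    linarith
  obtain ⟨K, hK⟩ := H1 r hr hrr1
  refine ⟨K, fun U0 col0 z hSt hz hd hsn => ?_⟩
  obtain ⟨x0, Lf, W, hx0, hxpi, hsin, hnL, hR, hEW, hE2⟩ := hK U0 col0 z hSt hz hd hsn
  set s : ℝ := sn U0 col0 z with hs
  set c : ℝ := Real.cot x0 with hc
  have hs0 : 0 < s := lt_of_lt_of_le hκ hsn
  have hs1 : s ≤ 1 := by rw [← hsin]; exact Real.sin_le_one _
  have hMC : (4 * M + 1 + M ^ 2) * C1 ≤ C := by
    have : 0 < 120 * H ^ 8 := by positivity
    rw [hC]; linarith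
  have hAC : A + (4 * M + 1 + M ^ 2) * C1 ≤ C := by
    have : 0 < 120 * H ^ 8 := by positivity
    rw [hC]; linarith
  have h120 : 120 * H ^ 8 ≤ C := by
    have : 0 < (4 * M + 1 + M ^ 2) * C1 := by positivity
    rw [hC]; linarith
  have hCr0 : 0 ≤ C * r := by positivity
  have hr120 : 120 * H ^ 8 * r ≤ 1 := by
    have : 120 * H ^ 8 * r ≤ C * r := mul_le_mul_of_nonneg_right h120 hr.le
    linarith
  have hC1C : C1 ≤ C := by
    have := Pool.Agent.H20.SM.c_facts M C1 hM1 hC1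
    linarith
  have hC1r : C1 * r ≤ 1 / 16 := by
    have : C1 * r ≤ C * r := mul_le_mul_of_nonneg_right hC1C hr.le
    linarith
  obtain ⟨hcM0, hcs⟩ := Pool.Agent.H20.SM.cot_facts x0 s κ hκ hsin hsn
  have hcM : |c| ≤ M := hcM0.trans hMκ
  set u0 : ℝ := s ^ ((1 / 3) : ℝ) with hu0
  obtain ⟨hu0p, hu1, hsu⟩ := Pool.Agent.H20.SM.u_facts s hs0 hs1
  obtain ⟨-, -, -, hcr0, -, -, -, -, -⟩ := hR U0 col0 [] Rh.refl
  set P : ℝ := crad U0 z ^ (-(1 / 4) : ℝ) with hP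
  have hPp : 0 < P := Real.rpow_pos_of_pos hcr0 _
  -- pointwise
  have hpt : ∀ U col hi, Rh z (fun U col _ => Lf U col) U0 col0 [] U col hi →
      ∃ y, sn U col z = s * (1 + y) ∧ |y| ≤ 7 * H ^ 4 * r ∧
        |y - (c * W U col / 2 + c ^ 2 * lS U0 U z / 2 - W U col ^ 2 / 8)| ≤ 4 * H ^ 4 * r ^ 3 ∧
        |y ^ 2 - c ^ 2 * W U col ^ 2 / 4| ≤ 60 * H ^ 8 * r ^ 3 ∧
        (∀ a : ℝ, 0 ≤ a → a ≤ 1 / 4 → |Real.exp (a * lS U0 U z) * (1 + y) ^ ((1 / 3) : ℝ) -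
          (1 + a * lS U0 U z + (c * W U col / 2 + c ^ 2 * lS U0 U z / 2 - W U col ^ 2 / 8) / 3 -
          (c ^ 2 * W U col ^ 2 / 4) / 9)| ≤ A1 * r ^ 3) ∧
        gv U col z = P * u0 * (Real.exp (1 / 4 * lS U0 U z) * (1 + y) ^ ((1 / 3) : ℝ)) ∧
        sn U col z ^ ((1 / 3) : ℝ) = u0 * (1 + y) ^ ((1 / 3) : ℝ) := by
    intro U col hi hRh
    obtain ⟨-, -, -, hcr, hS0, hS, hW, -, x, hx, hx2⟩ := hR U col hi hRh
    obtain ⟨y, h1, h2, h3, h4, h5⟩ := Pool.Agent.H20.SM.state_exp C1 κ r (W U col) (lS U0 U z) x x0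
      s M H hκ hM1 hMκ hC1 hH hr hr120 hsin hsn hW hS0 hS hx2
    rw [← hA1] at h5
    have hy1 : 0 ≤ 1 + y := by
      have hH4 : H ^ 4 ≤ H ^ 8 := pow_le_pow_right₀ hH1 (by norm_num)
      have h6 : 7 * H ^ 4 * r ≤ 1 := by
        have : 7 * H ^ 4 * r ≤ 120 * H ^ 8 * r := by
          apply mul_le_mul_of_nonneg_right _ hr.le
          have : 0 < H ^ 8 := by positivity
          linarith
        linarith
      have := (abs_le.1 h2).1
      linarith
    have hsn3 : sn U col z ^ ((1 / 3) : ℝ) = u0 * (1 + y) ^ ((1 / 3) : ℝ) := by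
      rw [hx, h1, Real.mul_rpow hs0.le hy1]
    refine ⟨y, by rw [hx, h1], h2, h3, h4, h5, ?_, hsn3⟩
    have hcrad : crad U z = crad U0 z * Real.exp (-(lS U0 U z)) := by
      unfold lS
      rw [Real.exp_neg, Real.exp_log (div_pos hcr0 hcr)]
      field_simp
    unfold gv
    rw [hsn3, hcrad, Real.mul_rpow hcr0.le (Real.exp_pos _).le, ← Real.exp_mul, ← hP]
    have : -(lS U0 U z) * (-(1 / 4) : ℝ) = 1 / 4 * lS U0 U z := by ring
    rw [this]
    ring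
  have hLf : ∀ U col hi, Rh z (fun U col _ => Lf U col) U0 col0 [] U col hi →
      (tipF U col = none ∨ Lf U col ∨ tipF U col = some z) → Lf U col := by
    intro U col hi hRh hend
    obtain ⟨-, -, ⟨t, ht, htz⟩, -⟩ := hR U col hi hRh
    rcases hend with h1 | h1 | h1
    · rw [ht] at h1; exact absurd h1 (by simp)
    · exact h1
    · rw [ht] at h1; exact absurd (Option.some.inj h1) htz
  -- abbreviations
  set stop : Finset Fc → (Fc → Bool) → List Bool → Prop := fun U col _ => Lf U col with hstop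
  set GW : Finset Fc → (Fc → Bool) → List Bool → ℝ := fun U col _ => W U col with hGW
  set G2 : Finset Fc → (Fc → Bool) → List Bool → ℝ :=
    fun U col _ => W U col ^ 2 - 6 * lS U0 U z with hG2
  set GS : Finset Fc → (Fc → Bool) → List Bool → ℝ := fun U _ _ => lS U0 U z with hGS
  have hES : r ^ 2 / 8 ≤ Ev z stop GS U0 col0 [] := by
    have h1 : Ev z stop (fun _ _ _ => r ^ 2) U0 col0 [] ≤
        Ev z stop (fun U col hi => 1 * G2 U col hi + 7 * GS U col hi + 0) U0 col0 [] := by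
      refine Ev_le fun U col hi hRh hend => ?_
      obtain ⟨-, -, -, -, -, -, -, h8, -⟩ := hR U col hi hRh
      have h9 := h8 (hLf U col hi hRh hend)
      simp only [hG2, hGS]
      linarith
    rw [Ev_const, Ev_lin2 G2 GS 1 7 0] at h1
    have h2 := (abs_le.1 hE2).2
    have h3 : C1 * r ^ 3 ≤ r ^ 2 / 16 := by
      have : C1 * r ^ 3 = (C1 * r) * r ^ 2 := by ring
      rw [this]
      have := mul_le_mul_of_nonneg_right hC1r (sq_nonneg r)
      linarith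
    have h4 : 0 < r ^ 2 := by positivity
    linarith
  have hr3 : 0 < r ^ 3 := by positivity
  have hA1A : A1 ≤ A := by
    have : 0 < 68 * H ^ 8 := by positivity
    rw [hA]; linarith
  have hEG1 : Ev z stop (fun U col _ => gv U col z) U0 col0 [] ≤
      P * u0 * (1 + c / 6 * Ev z stop GW U0 col0 [] -
        (1 / 24 + c ^ 2 / 36) * Ev z stop G2 U0 col0 [] + A * r ^ 3) := by
    have h1 : Ev z stop (fun U col _ => gv U col z) U0 col0 [] ≤
        Ev z stop (fun U col hi => P * u0 * (c / 6) * GW U col hi +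
          -(P * u0 * (1 / 24 + c ^ 2 / 36)) * G2 U col hi + P * u0 * (1 + A * r ^ 3)) U0 col0 [] := by
      refine Ev_le fun U col hi hRh hend => ?_
      obtain ⟨y, -, -, -, -, h5, h6, -⟩ := hpt U col hi hRh
      have h7 := (abs_le.1 (h5 (1 / 4) (by norm_num) le_rfl)).2
      simp only [hGW, hG2]
      rw [h6]
      have h8 : A1 * r ^ 3 ≤ A * r ^ 3 := mul_le_mul_of_nonneg_right hA1A hr3.le
      have h9 : Real.exp (1 / 4 * lS U0 U z) * (1 + y) ^ ((1 / 3) : ℝ) ≤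
          c / 6 * W U col - (1 / 24 + c ^ 2 / 36) * (W U col ^ 2 - 6 * lS U0 U z) + 1 +
            A * r ^ 3 := by linarith
      have h10 := mul_le_mul_of_nonneg_left h9 (by positivity : 0 ≤ P * u0)
      linarith
    rw [Ev_lin2 GW G2] at h1
    linarith
  have hEG2 : P * u0 * (1 + c / 6 * Ev z stop GW U0 col0 [] -
        (1 / 24 + c ^ 2 / 36) * Ev z stop G2 U0 col0 [] - A * r ^ 3) ≤
      Ev z stop (fun U col _ => gv U col z) U0 col0 [] := by
    have h1 : Ev z stop (fun U col hi => P * u0 * (c / 6) * GW U col hi +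
          -(P * u0 * (1 / 24 + c ^ 2 / 36)) * G2 U col hi + P * u0 * (1 - A * r ^ 3)) U0 col0 [] ≤
        Ev z stop (fun U col _ => gv U col z) U0 col0 [] := by
      refine Ev_le fun U col hi hRh hend => ?_
      obtain ⟨y, -, -, -, -, h5, h6, -⟩ := hpt U col hi hRh
      have h7 := (abs_le.1 (h5 (1 / 4) (by norm_num) le_rfl)).1
      simp only [hGW, hG2]
      rw [h6]
      have h8 : A1 * r ^ 3 ≤ A * r ^ 3 := mul_le_mul_of_nonneg_right hA1A hr3.le
      have h9 : c / 6 * W U col - (1 / 24 + c ^ 2 / 36) * (W U col ^ 2 - 6 * lS U0 U z) + 1 -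
            A * r ^ 3 ≤ Real.exp (1 / 4 * lS U0 U z) * (1 + y) ^ ((1 / 3) : ℝ) := by linarith
      have h10 := mul_le_mul_of_nonneg_left h9 (by positivity : 0 ≤ P * u0)
      linarith
    rw [Ev_lin2 GW G2] at h1
    linarith
  have hEF : Ev z stop (fun U col _ => FF (sn U col z)) U0 col0 [] ≤ FF s +
      (16 * u0 * c / 6 - s ^ 2 * c) * Ev z stop GW U0 col0 [] +
      (-(16 * u0 * (1 / 24 + c ^ 2 / 36)) + s ^ 2 * (1 - c ^ 2) / 4) *
        Ev z stop G2 U0 col0 [] +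
      (-(4 * u0) + 4 * s ^ 2 - 5 / 2) * Ev z stop GS U0 col0 [] + A * r ^ 3 := by
    have h1 : Ev z stop (fun U col _ => FF (sn U col z)) U0 col0 [] ≤
        Ev z stop (fun U col hi => (16 * u0 * c / 6 - s ^ 2 * c) * GW U col hi +
          (-(16 * u0 * (1 / 24 + c ^ 2 / 36)) + s ^ 2 * (1 - c ^ 2) / 4) * G2 U col hi +
          (-(4 * u0) + 4 * s ^ 2 - 5 / 2) * GS U col hi + (FF s + A * r ^ 3)) U0 col0 [] := by
      refine Ev_le fun U col hi hRh hend => ?_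
      obtain ⟨y, hy, -, hyY, hyQ, h5, -, h6⟩ := hpt U col hi hRh
      have h7 := (abs_le.1 (h5 0 le_rfl (by norm_num))).2
      rw [zero_mul, Real.exp_zero, one_mul] at h7
      simp only [hGW, hG2, hGS]
      have hF : FF (sn U col z) = 16 * (u0 * (1 + y) ^ ((1 / 3) : ℝ)) - s ^ 2 * (1 + y) ^ 2 := by
        unfold FF
        rw [h6, hy]
        ring
      have hF0 : FF s = 16 * u0 - s ^ 2 := rfl
      rw [hF, hF0]
      set w : ℝ := W U col
      set S : ℝ := lS U0 U z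
      set k : ℝ := (1 + y) ^ ((1 / 3) : ℝ)
      have h8 : 16 * (u0 * k) ≤ 16 * u0 * (1 + (c * w / 2 + c ^ 2 * S / 2 - w ^ 2 / 8) / 3 -
          (c ^ 2 * w ^ 2 / 4) / 9) + 16 * (A1 * r ^ 3) := by
        have e1 : k ≤ 1 + (c * w / 2 + c ^ 2 * S / 2 - w ^ 2 / 8) / 3 -
          (c ^ 2 * w ^ 2 / 4) / 9 + A1 * r ^ 3 := by linarith
        have e2 := mul_le_mul_of_nonneg_left e1 hu0p.le
        have e3 : u0 * (A1 * r ^ 3) ≤ 1 * (A1 * r ^ 3) :=
          mul_le_mul_of_nonneg_right hu1 (by positivity)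
        linarith
      have h9 : -(s ^ 2 * (1 + y) ^ 2) ≤ -(s ^ 2 * (1 + 2 * (c * w / 2 + c ^ 2 * S / 2 - w ^ 2 / 8) +
          c ^ 2 * w ^ 2 / 4)) + 68 * H ^ 8 * r ^ 3 := by
        have e1 := (abs_le.1 hyY).1
        have e2 := (abs_le.1 hyQ).1
        have hH4 : H ^ 4 ≤ H ^ 8 := pow_le_pow_right₀ hH1 (by norm_num)
        have e3 : 4 * H ^ 4 * r ^ 3 ≤ 4 * H ^ 8 * r ^ 3 := by
          apply mul_le_mul_of_nonneg_right _ hr3.le
          linarith
        have e4 : 1 + 2 * (c * w / 2 + c ^ 2 * S / 2 - w ^ 2 / 8) + c ^ 2 * w ^ 2 / 4 -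
            68 * H ^ 8 * r ^ 3 ≤ (1 + y) ^ 2 := by
          have : (1 + y) ^ 2 = 1 + 2 * y + y ^ 2 := by ring
          rw [this]
          linarith
        have hs2 : 0 ≤ s ^ 2 := sq_nonneg s
        have hs21 : s ^ 2 ≤ 1 := pow_le_one₀ hs0.le hs1
        have e5 := mul_le_mul_of_nonneg_left e4 hs2
        have e6 : s ^ 2 * (68 * H ^ 8 * r ^ 3) ≤ 1 * (68 * H ^ 8 * r ^ 3) :=
          mul_le_mul_of_nonneg_right hs21 (by positivity)
        linarith
      have h10 : A * r ^ 3 = 16 * (A1 * r ^ 3) + 68 * H ^ 8 * r ^ 3 := by rw [hA]; ring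
      rw [h10]
      have hcs' : c ^ 2 * s ^ 2 * S = (1 - s ^ 2) * S := by rw [hcs]
      have hgoal : (16 * u0 * c / 6 - s ^ 2 * c) * w +
          (-(16 * u0 * (1 / 24 + c ^ 2 / 36)) + s ^ 2 * (1 - c ^ 2) / 4) * (w ^ 2 - 6 * S) +
          (-(4 * u0) + 4 * s ^ 2 - 5 / 2) * S + (16 * u0 - s ^ 2) =
          16 * u0 * (1 + (c * w / 2 + c ^ 2 * S / 2 - w ^ 2 / 8) / 3 -
            (c ^ 2 * w ^ 2 / 4) / 9) - s ^ 2 * (1 + 2 * (c * w / 2 + c ^ 2 * S / 2 - w ^ 2 / 8) +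
            c ^ 2 * w ^ 2 / 4) := by
        linear_combination (5 / 2) * hcs'
      linarith
    rw [Ev_lin3 GW G2 GS] at h1
    linarith
  have hfin := ps_num u0 s c C1 M A r P (Ev z stop GS U0 col0 []) (Ev z stop GW U0 col0 [])
    (Ev z stop G2 U0 col0 []) (Ev z stop (fun U col _ => gv U col z) U0 col0 [])
    (Ev z stop (fun U col _ => FF (sn U col z)) U0 col0 []) (FF s) hu0p hu1 hsu hcM hM1
    hC1 hAp hr hcs hPp hEW hE2 hES hEG1 hEG2 hEF (by
      have : 16 * (A + (4 * M + 1 + M ^ 2) * C1) * r ≤ 16 * C * r := by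
        apply mul_le_mul_of_nonneg_right _ hr.le
        linarith
      linarith)
  refine ⟨Lf, hnL, fun U col hi hRh => ?_, hES, ?_, hfin.2⟩
  · obtain ⟨g1, g2, g3, g4, g5, g6, -, -, -⟩ := hR U col hi hRh
    obtain ⟨y, hy, hyb, -⟩ := hpt U col hi hRh
    refine ⟨g1, g2, g3, g4, g5, g6, ?_⟩
    rw [hy]
    have e1 : s * (1 + y) - s = s * y := by ring
    rw [e1, abs_mul, abs_of_pos hs0]
    have hH4 : H ^ 4 ≤ H ^ 8 := pow_le_pow_right₀ hH1 (by norm_num)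
    have e2 : 7 * H ^ 4 * r ≤ C * r := by
      apply mul_le_mul_of_nonneg_right _ hr.le
      have : 0 < H ^ 8 := by positivity
      linarith
    calc s * |y| ≤ 1 * (7 * H ^ 4 * r) := mul_le_mul hs1 hyb (abs_nonneg _) (by norm_num)
      _ ≤ C * r := by linarith
  · have e1 : gv U0 col0 z = P * u0 := rfl
    rw [e1]
    refine hfin.1.trans ?_
    have e2 : (A + (4 * M + 1 + M ^ 2) * C1) * r ^ 3 ≤ C * r ^ 3 :=
      mul_le_mul_of_nonneg_right hAC hr3.le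
    exact mul_le_mul_of_nonneg_right e2 hPp.le

end Pool.Agent.H93.SM
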